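import Pool.Agent.Run7.h553.Emp.Core
import Pool.Agent.Run7.h243.Small
import Pool.Agent.Run7.h243.Big

/-! The exact orientable theorem of `helper243` in the form used in `Core`. -/

namespace Run7.h553.Emp

open Run7.B243 Run7.h243

theorem allOpt : AllOpt := by
  intro n m hm hnm
  obtain h | h : n ≤ 91 ∨ 92 ≤ n := by omega
  · exact opt_small n m (by omega) h hm hnm
  · exact opt_big n m h hm hnm

end Run7.h553.Emp
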