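import Pool.Agent.Run7.h243.Exact
import Pool.Agent.Run7.h243.Base.Hs

set_option linter.unusedSectionVars false
set_option linter.unusedSimpArgs false

/-! Consequences of the exact orientable theorem for all closed surfaces. -/

namespace Run7.h553.Emp

open Run7.B243 Run7.h243

theorem good_crosscaps (ε : ℤ) (n m k : ℕ) (o : Bool) (h : Good o ε n m) :
    Good false (ε - (k + 1 : ℕ)) n m := by
  induction k with
  | zero =>
    have := good_crosscap h
    simpa using this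
  | succ k ih =>
    have := good_crosscap ih
    have e : ε - (k + 1 : ℕ) - 1 = ε - (k + 1 + 1 : ℕ) := by push_cast; ring
    rwa [e] at this

theorem necessary_of_good (s : Surface) (m n : ℕ) (o : Bool) (ho : s.Orientable ↔ o = true)
    (h : Good o s.euler n m) (hH : H s.euler m = n) : Necessary s m := by
  obtain ⟨M, country, h1, h2, h3, h4⟩ := h
  refine ⟨M, Fin n, country, ⟨h1.trans ho.symm, h2⟩, h3, ?_⟩
  intro k col hcol
  rw [hH]
  have hinj : Function.Injective col := by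
    intro a b hab
    by_contra hne
    obtain ⟨x, hx, hx'⟩ := h4 a b hne
    have := hcol x (by rw [hx, hx']; exact hne)
    rw [hx, hx'] at this
    exact this hab
  have := Fintype.card_le_of_injective col hinj
  simp only [Fintype.card_fin] at this
  exact_mod_cast this

/-- the exact orientable theorem, as a hypothesis -/
def AllOpt : Prop := ∀ n m : ℕ, 2 ≤ m → 6 * m + 1 ≤ n → ∃ ε : ℤ, GoodE true ε n m ∧ Even ε ∧
  (n : ℤ) * (6 * m + 1 - n) - 10 ≤ 6 * ε

/-- `H` is at least `6 m + 1` from the torus on -/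
theorem H_ge (ε : ℤ) (m : ℕ) (hm : 1 ≤ m) (hε : ε ≤ 0) : 6 * (m : ℤ) + 1 ≤ H ε m := by
  obtain ⟨a1, a2, a3, a4⟩ := H_spec ε m hm (by omega)
  by_contra hcon
  push Not at hcon
  have h1 : H ε m ≤ 6 * m := by omega
  have h2 : (0 : ℤ) ≤ (H ε m + 1) * (6 * m - H ε m) := mul_nonneg (by omega) (by omega)
  omega

theorem orientable (hO : AllOpt) (g m : ℕ) (hm : 2 ≤ m) (hg : 1 ≤ g) :
    Necessary (Surface.S g) m := by
  obtain ⟨n, hn⟩ : ∃ n : ℕ, H (2 - 2 * (g : ℤ)) m = n := by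
    have := H_ge (2 - 2 * (g : ℤ)) m (by omega) (by omega)
    exact ⟨(H (2 - 2 * (g : ℤ)) m).toNat, by omega⟩
  have hge := H_ge (2 - 2 * (g : ℤ)) m (by omega) (by omega)
  obtain ⟨a1, a2, a3, a4⟩ := H_spec (2 - 2 * (g : ℤ)) m (by omega) (by omega)
  rw [hn] at a1 a2 hge
  obtain ⟨ε, h1, h2, h3⟩ := hO n m hm (by omega)
  obtain ⟨t, ht⟩ := h2
  obtain ⟨k, hk⟩ : ∃ k : ℕ, ε - 2 * k = 2 - 2 * (g : ℤ) :=
    ⟨(t - (1 - (g : ℤ))).toNat, by omega⟩
  have hg' := goodE_handles ε n m k h1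
  rw [hk] at hg'
  exact necessary_of_good (Surface.S g) m n true (by simp [Surface.Orientable]) hg'.good hn

theorem nonorientable_aux (hO : AllOpt) (k m : ℕ) (hm : 2 ≤ m) (hk : 1 ≤ k)
    (h : 6 * (Surface.N k).euler + 12 ≤
        H (Surface.N k).euler m * (6 * m + 1 - H (Surface.N k).euler m) ∨
      (Odd (Surface.N k).euler ∧ 6 * (Surface.N k).euler + 6 ≤
        H (Surface.N k).euler m * (6 * m + 1 - H (Surface.N k).euler m))) :
    Necessary (Surface.N k) m := by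
  have he : (Surface.N k).euler = 1 - (k : ℤ) := rfl
  rw [he] at h
  have hge := H_ge (1 - (k : ℤ)) m (by omega) (by omega)
  obtain ⟨n, hn⟩ : ∃ n : ℕ, H (1 - (k : ℤ)) m = n :=
    ⟨(H (1 - (k : ℤ)) m).toNat, by omega⟩
  rw [hn] at h hge
  obtain ⟨ε, h1, h2, h3⟩ := hO n m hm (by omega)
  obtain ⟨t, ht⟩ := h2
  obtain ⟨j, hj⟩ : ∃ j : ℕ, ε - (j + 1 : ℕ) = 1 - (k : ℤ) := by
    refine ⟨(ε - (1 - (k : ℤ)) - 1).toNat, ?_⟩
    generalize (n : ℤ) * (6 * m + 1 - n) = X at h h3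
    rcases h with h | ⟨⟨q, hq⟩, h⟩
    · omega
    · omega
  have hg := good_crosscaps ε n m j true h1.good
  rw [hj, ← he] at hg
  exact necessary_of_good (Surface.N k) m n false (by simp [Surface.Orientable]) hg
    (by rw [he]; exact hn)

theorem nonorientable (hO : AllOpt) (k m : ℕ) (hm : 2 ≤ m) (hk : 1 ≤ k)
    (h1 : H ((Surface.N k).euler + 1) m = H (Surface.N k).euler m)
    (h2 : Even (Surface.N k).euler → H ((Surface.N k).euler + 2) m = H (Surface.N k).euler m) :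
    Necessary (Surface.N k) m := by
  apply nonorientable_aux hO k m hm hk
  have he : (Surface.N k).euler = 1 - (k : ℤ) := rfl
  obtain ⟨a1, -⟩ := H_spec ((Surface.N k).euler + 1) m (by omega) (by rw [he]; omega)
  rw [h1] at a1
  rcases Int.even_or_odd (Surface.N k).euler with hev | hodd
  · left
    obtain ⟨b1, -⟩ := H_spec ((Surface.N k).euler + 2) m (by omega) (by rw [he]; omega)
    rw [h2 hev] at b1
    linarith
  · right
    exact ⟨hodd, by linarith⟩

theorem count (hO : AllOpt) (m G : ℕ) (hm : 2 ≤ m) :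
    Nat.card {k : ℕ // k ≤ G ∧ ¬ Necessary (Surface.N k) m} ≤ 2 * Nat.sqrt (6 * G) + 3 := by
  have hc : Nat.card (Option (Fin 2 × Fin (Nat.sqrt (6 * G) + 1))) =
      2 * Nat.sqrt (6 * G) + 3 := by
    simp [Nat.card_eq_fintype_card]; ring
  rw [← hc]
  have key : ∀ k : ℕ, 1 ≤ k → k ≤ G → ¬ Necessary (Surface.N k) m →
      (0 ≤ H (1 - (k : ℤ)) m * (6 * m + 1 - H (1 - (k : ℤ)) m) / 6 - (1 - (k : ℤ)) ∧
        H (1 - (k : ℤ)) m * (6 * m + 1 - H (1 - (k : ℤ)) m) / 6 - (1 - (k : ℤ)) < 2) ∧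
      6 * (m : ℤ) + 1 ≤ H (1 - (k : ℤ)) m ∧
        H (1 - (k : ℤ)) m < 6 * m + 2 + Nat.sqrt (6 * G) := by
    intro k hk hkG hN
    have h1 := (H_spec (1 - (k : ℤ)) m (by omega) (by omega)).1
    have h2 : ¬ (6 * (1 - (k : ℤ)) + 12 ≤
        H (1 - (k : ℤ)) m * (6 * m + 1 - H (1 - (k : ℤ)) m)) := fun hh =>
      hN (nonorientable_aux hO k m hm hk (Or.inl hh))
    have hge := H_ge (1 - (k : ℤ)) m (by omega) (by omega)
    refine ⟨?_, hge, ?_⟩
    · generalize H (1 - (k : ℤ)) m * (6 * m + 1 - H (1 - (k : ℤ)) m) = X at h1 h2 ⊢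
      omega
    · obtain ⟨n, hn⟩ : ∃ n : ℕ, H (1 - (k : ℤ)) m = n :=
        ⟨(H (1 - (k : ℤ)) m).toNat, by omega⟩
      rw [hn] at h1 hge ⊢
      obtain ⟨a, rfl⟩ : ∃ a, n = 6 * m + 1 + a := ⟨n - (6 * m + 1), by omega⟩
      have h5 : a * a ≤ 6 * G := by
        have : ((a * a : ℕ) : ℤ) ≤ (6 * G : ℕ) := by
          push_cast at h1 ⊢
          have : (k : ℤ) ≤ G := by exact_mod_cast hkG
          have hm0 : (0 : ℤ) ≤ m := by positivity
          have ha0 : (0 : ℤ) ≤ a := by positivity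
          nlinarith
        exact_mod_cast this
      have h6 : a ≤ Nat.sqrt (6 * G) := Nat.le_sqrt.mpr h5
      push_cast
      omega
  let f : {k : ℕ // k ≤ G ∧ ¬ Necessary (Surface.N k) m} →
      Option (Fin 2 × Fin (Nat.sqrt (6 * G) + 1)) := fun k =>
    if h : 1 ≤ k.1 then some (
      ⟨(H (1 - (k.1 : ℤ)) m * (6 * m + 1 - H (1 - (k.1 : ℤ)) m) / 6 - (1 - (k.1 : ℤ))).toNat, by
        have := key k.1 h k.2.1 k.2.2
        omega⟩,
      ⟨(H (1 - (k.1 : ℤ)) m - (6 * m + 1)).toNat, by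
        have := key k.1 h k.2.1 k.2.2
        omega⟩) else none
  refine Nat.card_le_card_of_injective f ?_
  intro a b hab
  by_cases ha : 1 ≤ a.1
  · by_cases hb : 1 ≤ b.1
    · simp only [f, dif_pos ha, dif_pos hb, Option.some.injEq, Prod.mk.injEq, Fin.mk.injEq] at hab
      obtain ⟨h1, h2⟩ := hab
      have a1 := key a.1 ha a.2.1 a.2.2
      have b1 := key b.1 hb b.2.1 b.2.2
      have h3 : H (1 - (a.1 : ℤ)) m = H (1 - (b.1 : ℤ)) m := by omega
      rw [h3] at h1 a1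
      refine Subtype.ext ?_
      omega
    · simp only [f, dif_pos ha, dif_neg hb] at hab
      exact absurd hab (by simp)
  · by_cases hb : 1 ≤ b.1
    · simp only [f, dif_neg ha, dif_pos hb] at hab
      exact absurd hab (by simp)
    · exact Subtype.ext (by omega)

end Run7.h553.Emp
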